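import Pool.Agent.H458.AR.Fld
import Pool.Graph.R_pool_sql_team_seeded_63374d34.N747.PQ.Exq
import Pool.Graph.R_pool_sql_team_seeded_63374d34.N849.PQ.Int
import Pool.Graph.R_pool_sql_team_seeded_63374d34.N849.PM.Loc2

/-!
# The condition at a prime dividing the twist
-/

set_option autoImplicit false
set_option linter.all false

open IsDedekindDomain NumberField Polynomial

namespace Pool.Agent.H803.AR458

open Pool.Agent.N922.PQ
open Pool.Agent.N874.PP (Ev Sq1 U0)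
open Pool.Agent.N874.PM (PLoc Lies)
open Pool.Agent.H458.AR (LC)

/-- the local conditions over two isomorphic fields -/
theorem pl_ploc (F F' : Type) [Field F] [Field F'] [Algebra ℚ F] [Algebra ℚ F'] (e : F →+* F')
    (A B : ℤ) (A' B' : ℚ) (hA : A' = A) (hB : B' = B) (h : ℚ[X])
    (H : PL F A B (h.map (algebraMap ℚ F))) : PLoc (M := ℚ) F' A' B' h := by
  have hm : (h.map (algebraMap ℚ F)).map e = h.map (algebraMap ℚ F') := by
    rw [Polynomial.map_map]
    have : e.comp (algebraMap ℚ F) = algebraMap ℚ F' := Subsingleton.elim _ _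
    rw [this]
  have hff : (ff F A B).map e =
      X ^ 3 + C (algebraMap ℚ F' A') * X + C (algebraMap ℚ F' B') := by
    have e1 : algebraMap ℚ F' (A : ℚ) = (A : F') := map_intCast _ _
    have e2 : algebraMap ℚ F' (B : ℚ) = (B : F') := map_intCast _ _
    rw [hA, hB, ff_map, ff, e1, e2]
  rcases H with ⟨g, hg⟩ | ⟨x, y, hy, hxy, g, hg⟩
  · left
    refine ⟨g.map e, ?_⟩
    have := Polynomial.map_dvd e hg
    rw [hff, Polynomial.map_sub, Polynomial.map_pow, hm] at this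
    exact this
  · right
    refine ⟨e x, e y, ?_, ?_, g.map e, ?_⟩
    · exact (map_ne_zero e).2 hy
    · rw [hA, hB, map_intCast, map_intCast]
      have := congrArg e hxy
      rw [map_pow, map_add, map_add, map_pow, map_mul, map_intCast, map_intCast] at this
      exact this
    · have := Polynomial.map_dvd e hg
      rw [hff, Polynomial.map_sub, Polynomial.map_pow, Polynomial.map_mul, Polynomial.map_sub,
        Polynomial.map_C, Polynomial.map_X, hm] at this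
      exact this

/-- the prime of `ℤ` -/
noncomputable def ww (p : ℕ) [Fact p.Prime] : HeightOneSpectrum ℤ :=
  (Rat.HeightOneSpectrum.primesEquiv (R := ℤ)).symm ⟨p, Fact.out⟩

theorem ww_ideal (p : ℕ) [Fact p.Prime] : (ww p).asIdeal = Ideal.span {(p : ℤ)} := by
  show Ideal.map (Rat.IsIntegralClosure.intEquiv ℤ).symm (Ideal.span {((p : ℕ) : ℤ)}) = _
  rw [Ideal.map_span, Set.image_singleton, map_natCast]

theorem ww_lt (p : ℕ) [Fact p.Prime] (n : ℤ) :
    (ww p).valuation ℚ (n : ℚ) < 1 ↔ (p : ℤ) ∣ n := by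
  have h := HeightOneSpectrum.valuation_lt_one_iff_mem (K := ℚ) (ww p) n
  rw [ww_ideal, Ideal.mem_span_singleton] at h
  rw [← h]
  rfl

theorem ww_le (p : ℕ) [Fact p.Prime] (n : ℤ) : (ww p).valuation ℚ (n : ℚ) ≤ 1 :=
  HeightOneSpectrum.valuation_le_one (K := ℚ) (ww p) n

theorem ww_one (p : ℕ) [Fact p.Prime] {n : ℤ} (hn : ¬ (p : ℤ) ∣ n) :
    (ww p).valuation ℚ (n : ℚ) = 1 := by
  refine le_antisymm (ww_le p n) ?_
  rw [← not_lt, ww_lt]
  exact hn

theorem ww_p (p : ℕ) [hp : Fact p.Prime] : (ww p).valuation ℚ (p : ℚ) = WithZero.exp (-1 : ℤ) := by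
  have h1 := HeightOneSpectrum.intValuation_singleton (ww p) (r := (p : ℤ))
    (by exact_mod_cast hp.out.ne_zero) (ww_ideal p)
  have h2 := HeightOneSpectrum.valuation_of_algebraMap (K := ℚ) (ww p) (p : ℤ)
  rw [h1] at h2
  rw [← h2]
  rfl

/-- integral rational numbers at `p` -/
theorem ww_int (p : ℕ) [hp : Fact p.Prime] {x : ℚ} (hx : (ww p).valuation ℚ x ≤ 1) :
    ¬ (p : ℤ) ∣ x.den := by
  intro hd
  have h1 : ¬ (p : ℤ) ∣ x.num := by
    intro hn
    have h2 : (p : ℕ) ∣ x.num.natAbs := Int.natCast_dvd.1 hn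
    have h3 : (p : ℕ) ∣ x.den := by exact_mod_cast hd
    have h4 := Nat.dvd_gcd h2 h3
    rw [x.reduced] at h4
    exact hp.out.one_lt.ne' (Nat.dvd_one.1 h4)
  have h2 : x * (x.den : ℤ) = (x.num : ℤ) := by
    have := Rat.mul_den_eq_num x
    exact_mod_cast this
  have h3 := congrArg ((ww p).valuation ℚ) h2
  rw [map_mul, ww_one p h1] at h3
  have h4 : (ww p).valuation ℚ ((x.den : ℤ) : ℚ) < 1 := (ww_lt p _).2 hd
  have h5 : (ww p).valuation ℚ x * (ww p).valuation ℚ ((x.den : ℤ) : ℚ) ≤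
      1 * (ww p).valuation ℚ ((x.den : ℤ) : ℚ) := mul_le_mul_left hx _
  rw [h3, one_mul] at h5
  exact absurd (h5.trans_lt h4) (lt_irrefl _)

theorem fin_quot (p : ℕ) [hp : Fact p.Prime] : Finite (ℤ ⧸ (ww p).asIdeal) := by
  rw [ww_ideal]
  have : NeZero p := ⟨hp.out.ne_zero⟩
  exact Finite.of_equiv _ (Int.quotientSpanNatEquivZMod p).symm.toEquiv

section lies

variable {L O : Type} [Field L] [CharZero L] [CommRing O] [IsDedekindDomain O] [Algebra O L]
  [IsFractionRing O L]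

theorem val_le (𝔓 : HeightOneSpectrum O) (n : ℤ) : 𝔓.valuation L (n : L) ≤ 1 := by
  have h := HeightOneSpectrum.valuation_le_one (K := L) 𝔓 (n : O)
  have e : algebraMap O L (n : O) = (n : L) := map_intCast _ _
  change 𝔓.valuation L (algebraMap O L (n : O)) ≤ 1 at h
  rw [e] at h
  exact h

theorem val_lt (𝔓 : HeightOneSpectrum O) {p : ℕ} [hp : Fact p.Prime] (h𝔓 : Ov (p : ℤ) 𝔓) (n : ℤ) :
    𝔓.valuation L (n : L) < 1 ↔ (p : ℤ) ∣ n := by
  have h := HeightOneSpectrum.valuation_lt_one_iff_mem (K := L) 𝔓 (n : O)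
  have e : algebraMap O L (n : O) = (n : L) := map_intCast _ _
  change 𝔓.valuation L (algebraMap O L (n : O)) < 1 ↔ _ at h
  rw [e] at h
  rw [h]
  constructor
  · intro hn
    by_contra hpn
    have hco : IsCoprime (p : ℤ) n := by
      rw [Int.isCoprime_iff_gcd_eq_one]
      exact (Int.isCoprime_iff_gcd_eq_one.1
        ((Nat.prime_iff_prime_int.1 hp.out).coprime_iff_not_dvd.2 hpn))
    obtain ⟨u, v, huv⟩ := hco
    have h1 : (1 : O) ∈ 𝔓.asIdeal := by
      have e : (1 : O) = (u : O) * ((p : ℤ) : O) + (v : O) * (n : O) := by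
        rw [← Int.cast_mul, ← Int.cast_mul, ← Int.cast_add, huv, Int.cast_one]
      rw [e]
      exact 𝔓.asIdeal.add_mem (𝔓.asIdeal.mul_mem_left _ h𝔓) (𝔓.asIdeal.mul_mem_left _ hn)
    exact 𝔓.isPrime.ne_top ((Ideal.eq_top_iff_one _).2 h1)
  · rintro ⟨m, rfl⟩
    rw [Int.cast_mul]
    exact 𝔓.asIdeal.mul_mem_right _ h𝔓

theorem lies (𝔓 : HeightOneSpectrum O) {p : ℕ} [hp : Fact p.Prime] (h𝔓 : Ov (p : ℤ) 𝔓) :
    Lies (M := ℚ) (Ω := L) (ww p) 𝔓 := by
  have key : ∀ x : ℚ, (ww p).valuation ℚ x ≤ 1 →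
      𝔓.valuation L (algebraMap ℚ L x) = 𝔓.valuation L ((x.num : ℤ) : L) := by
    intro x hx
    have hd := ww_int p hx
    have h1 : 𝔓.valuation L ((x.den : ℤ) : L) = 1 := by
      refine le_antisymm (val_le 𝔓 _) ?_
      rw [← not_lt, val_lt 𝔓 h𝔓]
      exact hd
    have h2 : x * (x.den : ℤ) = (x.num : ℤ) := by
      have := Rat.mul_den_eq_num x
      exact_mod_cast this
    have h3 := congrArg (algebraMap ℚ L) h2
    rw [map_mul, map_intCast, map_intCast] at h3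
    have h4 := congrArg (𝔓.valuation L) h3
    rw [map_mul, h1, mul_one] at h4
    exact h4
  refine ⟨fun x hx => ?_, fun x hx => ?_⟩
  · rw [key x hx]
    exact val_le 𝔓 _
  · rw [key x hx.le, val_lt 𝔓 h𝔓]
    rw [← ww_lt p]
    have hd := ww_one p (ww_int p hx.le)
    have h2 : x * (x.den : ℤ) = (x.num : ℤ) := by
      have := Rat.mul_den_eq_num x
      exact_mod_cast this
    have h3 := congrArg ((ww p).valuation ℚ) h2
    rw [map_mul, hd, mul_one] at h3
    rw [← h3]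
    exact hx

end lies

theorem rq : Pool.Agent.H458.AR.S_RQ := by
  intro L O _ _ _ _ _ _ _ a b D' θ hc hsq p hp hp2 hp3 hpb hns hpD α hα hLC
  have hp' : Prime (p : ℤ) := Nat.prime_iff_prime_int.1 hp.out
  -- the condition on `a`
  have hnsq : ∀ z : ℚ, (ww p).valuation ℚ z ≤ 1 →
      ¬ (ww p).valuation ℚ (z ^ 2 + (a : ℚ)) < 1 := by
    intro z hz hlt
    have hd := ww_int p hz
    have hd1 := ww_one p hd
    have e1 : (z ^ 2 + (a : ℚ)) * ((z.den : ℤ) : ℚ) ^ 2 =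
        ((z.num ^ 2 + a * (z.den : ℤ) ^ 2 : ℤ) : ℚ) := by
      have h2 : z * (z.den : ℤ) = (z.num : ℤ) := by
        have := Rat.mul_den_eq_num z
        exact_mod_cast this
      rw [add_mul, ← mul_pow, h2]
      push_cast
      ring
    have e2 := congrArg ((ww p).valuation ℚ) e1
    rw [map_mul, map_pow, hd1, one_pow, mul_one] at e2
    rw [e2, ww_lt] at hlt
    have hco : IsCoprime (p : ℤ) (z.den : ℤ) := hp'.coprime_iff_not_dvd.2 hd
    obtain ⟨u, v, huv⟩ := hco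
    apply hns (z.num * v)
    have e3 : (z.num * v) ^ 2 + a = v ^ 2 * (z.num ^ 2 + a * (z.den : ℤ) ^ 2) +
        a * (1 - (v * (z.den : ℤ)) ^ 2) := by ring
    rw [e3]
    apply dvd_add (Dvd.dvd.mul_left hlt _)
    have e4 : 1 - (v * (z.den : ℤ)) ^ 2 = (p : ℤ) * (u * (1 + v * (z.den : ℤ))) := by
      have : v * (z.den : ℤ) = 1 - u * p := by linarith
      rw [this]
      ring
    rw [e4]
    exact Dvd.dvd.mul_left (dvd_mul_right _ _) _
  have hpL : ((p : ℤ) * D' : ℤ) ≠ 0 := by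
    intro h0
    rcases mul_eq_zero.1 h0 with h1 | h1
    · exact hp'.ne_zero h1
    · exact hpD (h1 ▸ dvd_zero _)
  have hpL' : (((p : ℤ) * D' : ℤ) : ℚ) ≠ 0 := by exact_mod_cast hpL
  -- the polynomial
  obtain ⟨h, hh⟩ : ∃ h : ℚ[X], aeval (((p * D' : ℤ) : L) * θ) h = α := by
    obtain ⟨r, s, t, hrst⟩ := hc.gen α
    refine ⟨C r + C (s / ((p * D' : ℤ) : ℚ)) * X + C (t / ((p * D' : ℤ) : ℚ) ^ 2) * X ^ 2, ?_⟩
    have hpL2 : (((p : ℤ) * D' : ℤ) : L) ≠ 0 := by exact_mod_cast hpL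
    simp only [map_add, map_mul, aeval_C, aeval_X, map_pow, map_div₀, map_intCast]
    rw [hrst]
    have c1 : algebraMap ℚ L r = (r : L) := eq_ratCast _ _
    have c2 : algebraMap ℚ L s = (s : L) := eq_ratCast _ _
    have c3 : algebraMap ℚ L t = (t : L) := eq_ratCast _ _
    rw [c1, c2, c3]
    field_simp
  have hPL := hLC h hh
  let e := Padic.adicCompletionEquiv ℤ ⟨p, hp.out⟩
  have hploc : PLoc (M := ℚ) ((ww p).adicCompletion ℚ) ((a : ℚ) * ((p : ℚ) * (D' : ℚ)) ^ 2)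
      ((b : ℚ) * ((p : ℚ) * (D' : ℚ)) ^ 3) h :=
    pl_ploc ℚ_[p] ((ww p).adicCompletion ℚ) e.toRingEquiv.toRingHom _ _ _ _ (by push_cast; ring)
      (by push_cast; ring) h hPL
  have hϑ : algebraMap ℚ L ((p : ℚ) * (D' : ℚ)) * θ = ((p * D' : ℤ) : L) * θ := by
    rw [map_mul, map_natCast, map_intCast]
    push_cast
    ring
  have hpp : algebraMap ℚ L (p : ℚ) = (p : L) := map_natCast _ _
  have hfin := fin_quot p
  have h6 : (ww p).valuation ℚ 6 = 1 := by
    have : ((6 : ℤ) : ℚ) = 6 := by norm_num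
    rw [← this]
    apply ww_one
    intro h6
    have h7 : (p : ℕ) ∣ 6 := by exact_mod_cast h6
    have h8 : (6 : ℕ) = 2 * 3 := rfl
    rw [h8, hp.out.dvd_mul] at h7
    rcases h7 with h7 | h7
    · exact hp2 ((Nat.prime_dvd_prime_iff_eq hp.out Nat.prime_two).1 h7)
    · exact hp3 ((Nat.prime_dvd_prime_iff_eq hp.out Nat.prime_three).1 h7)
  have main : ∀ 𝔓 : HeightOneSpectrum O, Ov (p : ℤ) 𝔓 →
      (𝔓.valuation L θ = 1 → ¬ Ev 𝔓 ((p : L) * θ) → U0 𝔓 ((p : L) * θ) α) ∧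
      (𝔓.valuation L θ < 1 → Ev 𝔓 α) := by
    intro 𝔓 h𝔓
    have h := Pool.Agent.N849.PM.loc2m ℚ L ℤ O (ww p) 𝔓 (lies 𝔓 h𝔓) (a : ℚ) (b : ℚ) (p : ℚ)
      (D' : ℚ) θ h (by rw [map_intCast, map_intCast]; exact hc.root) h6 (ww_le p a)
      ((ww_lt p b).2 hpb) (ww_p p) (ww_one p hpD) hnsq hploc
      (by rw [hϑ, hh]; exact hα)
    rw [hϑ, hh, hpp] at h
    exact h
  refine ⟨fun 𝔓 h𝔓 hv => ?_, fun 𝔓 h𝔓 hv => (main 𝔓 h𝔓).2 hv⟩
  apply (main 𝔓 h𝔓).1 hv
  obtain ⟨𝔓₁, 𝔮, k1, k2, k3, k4, k5, k6⟩ := Pool.Agent.N747.PQ.exq Pool.Agent.N849.PQ.int L O a b θ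
    hc hsq (p : ℤ) hp' hpb hns
  rcases k6 𝔓 h𝔓 with h1 | h1
  · rw [h1] at hv
    rw [hv] at k3
    exact absurd k3 (lt_irrefl _)
  · rw [h1]
    have : (((p : ℕ) : ℤ) : L) = (p : L) := by push_cast; rfl
    rw [this] at k5
    exact k5

end Pool.Agent.H803.AR458
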